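import Pool.Agent.Helper72.AI.Stmts2

set_option autoImplicit false

namespace Helper33AI

open AffInc

lemma good (n : Fin 3 → ℝ) (s : ℝ) (w ρ : Fin 3 → ℝ) (V : ℝ) (hn : ∀ i, 0 ≤ n i)
    (hL : 0 < ∑ i, n i) (hw : ∀ i, 0 ≤ w i) (hs : s = ∑ i, w i) (hs0 : 0 < s) (hs1 : s ≤ 1)
    (hsL : s ≤ ∑ i, n i) (hρ0 : ∀ i, 0 ≤ ρ i) (hρs : ∀ i, ρ i ≤ s)
    (hρ : ∀ i j, i ≠ j → s - w i ≤ ρ i * (1 + w j))
    (e : Fin 3 → ℝ) (he0 : ∀ i, 0 ≤ e i) (he1 : ∀ i, e i * (1 + ∑ k, n k) ≤ 1)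
    (he2 : ∀ i, 1 - n i ≤ e i * (1 + ∑ k, n k - n i))
    (hV : V * ∑ k, n k ≤ n 0 * (((1 + s) * (1 - e 1 * ρ 1) / (1 + w 1)) * ((1 + s) * (1 - e 2 * ρ 2) / (1 + w 2)))
      + n 1 * (((1 + s) * (1 - e 0 * ρ 0) / (1 + w 0)) * ((1 + s) * (1 - e 2 * ρ 2) / (1 + w 2)))
      + n 2 * (((1 + s) * (1 - e 0 * ρ 0) / (1 + w 0)) * ((1 + s) * (1 - e 1 * ρ 1) / (1 + w 1)))) :
    GoodPl n s w V := by
  have hnL : ∀ i, n i ≤ ∑ k, n k := fun i => Finset.single_le_sum (f := n) (fun j _ => hn j) (Finset.mem_univ i)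
  have hws : ∀ i, w i ≤ s := fun i => by
    rw [hs]; exact Finset.single_le_sum (f := w) (fun j _ => hw j) (Finset.mem_univ i)
  have hx0 : ∀ i, 0 ≤ e i * ρ i := fun i => mul_nonneg (he0 i) (hρ0 i)
  have hx1 : ∀ i, e i * ρ i ≤ 1 := by
    intro i
    have h1 := he1 i
    have h2 : e i * ρ i ≤ e i * (1 + ∑ k, n k) :=
      mul_le_mul_of_nonneg_left (by linarith [hρs i]) (he0 i)
    linarith
  have hφ : ∀ i, 0 ≤ (1 + s) * (1 - e i * ρ i) / (1 + w i) := by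
    intro i
    have := hw i
    have := hx1 i
    apply div_nonneg (mul_nonneg (by linarith) (by linarith)) (by linarith)
  have hφ1 : ∀ i, (1 + s) * (1 - e i * ρ i) / (1 + w i) * (1 + w i) ≤ 1 + s := by
    intro i
    have h1 : (0:ℝ) < 1 + w i := by linarith [hw i]
    rw [div_mul_cancel₀ _ h1.ne']
    nlinarith [hx0 i]
  have hr : ∀ i, 0 ≤ (s - w i) / (1 + s) := fun i => div_nonneg (by linarith [hws i]) (by linarith)
  have hN : ∀ i, 0 < 1 + ∑ k, n k - n i := fun i => by linarith [hnL i]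
  refine ⟨fun i => (s - w i) / (1 + s), fun i => (1 + s) * (1 - e i * ρ i) / (1 + w i),
    fun i => ⟨hr i, le_refl _⟩, ?_, hφ, ?_, ?_, hV⟩
  · intro i j hij
    rw [← add_div, div_le_one (by linarith)]
    have h3 : s ≤ w i + w j + 1 := by linarith [hw i, hw j]
    have : ∀ i j : Fin 3, i ≠ j → s - w i - w j ≤ 1 := by
      intro i j _; linarith [hw i, hw j]
    -- s - w i + (s - w j) ≤ 1 + s, i.e. s - w i - w j ≤ 1
    linarith [this i j hij]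
  · intro i j hij
    have h1 : (1 - (s - w i) / (1 + s)) * ((1 + s) * (1 - e i * ρ i) / (1 + w i)) = 1 - e i * ρ i := by
      have a1 : (1 + s) ≠ 0 := by linarith
      have a2 : (1 + w i) ≠ 0 := by linarith [hw i]
      field_simp
      ring
    rw [h1]
    have h2 : (s - w i) / (1 + s) * ((1 + s) * (1 - e j * ρ j) / (1 + w j)) ≤ ρ i := by
      have b1 := hφ1 j
      have b2 : (0:ℝ) < 1 + w j := by linarith [hw j]
      have b3 : (0:ℝ) < 1 + s := by linarith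
      have b4 := hρ i j hij
      have b5 : (s - w i) / (1 + s) * ((1 + s) * (1 - e j * ρ j) / (1 + w j))
          = (s - w i) * (1 - e j * ρ j) / (1 + w j) := by
        field_simp
      rw [b5, div_le_iff₀ b2]
      have b6 : (s - w i) * (1 - e j * ρ j) ≤ s - w i := by
        nlinarith [hws i, hx0 j]
      linarith
    have h3 : 0 ≤ (s - w i) / (1 + s) * ((1 + s) * (1 - e j * ρ j) / (1 + w j)) :=
      mul_nonneg (hr i) (hφ j)
    have h4 := he2 i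
    have h5 := hN i
    set y := (s - w i) / (1 + s) * ((1 + s) * (1 - e j * ρ j) / (1 + w j)) with hy
    have h6 : (1 - n i) * y ≤ e i * (1 + ∑ k, n k - n i) * ρ i := by
      calc (1 - n i) * y ≤ e i * (1 + ∑ k, n k - n i) * y := mul_le_mul_of_nonneg_right h4 h3
        _ ≤ e i * (1 + ∑ k, n k - n i) * ρ i :=
          mul_le_mul_of_nonneg_left h2 (mul_nonneg (he0 i) h5.le)
    linarith
  · intro i j hij
    have h1 := he2 j
    have h2 := hφ i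
    have h3 : (1 + s) * (1 - e i * ρ i) / (1 + w i) ≤ 1 + s := by
      have b2 : (0:ℝ) < 1 + w i := by linarith [hw i]
      rw [div_le_iff₀ b2]
      have b3 : (1 + s) * (1 - e i * ρ i) ≤ 1 + s := by nlinarith [hx0 i]
      nlinarith [hw i]
    set y := (1 + s) * (1 - e i * ρ i) / (1 + w i) with hy
    have h4 := he1 j
    have h5 := hN j
    have h6 : e j * y ≤ 1 := by
      have : e j * y ≤ e j * (1 + ∑ k, n k) := mul_le_mul_of_nonneg_left (by linarith) (he0 j)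
      linarith
    calc (1 - n j) * y ≤ e j * (1 + ∑ k, n k - n j) * y := mul_le_mul_of_nonneg_right h1 h2
      _ = (1 + ∑ k, n k - n j) * (e j * y) := by ring
      _ ≤ (1 + ∑ k, n k - n j) * 1 := mul_le_mul_of_nonneg_left h6 h5.le
      _ = _ := by ring

lemma low (n0 n1 n2 s a b c x y z : ℝ) (hn0 : 0 ≤ n0) (hn1 : 0 ≤ n1) (hn2 : 0 ≤ n2)
    (ha : 0 ≤ a) (hb : 0 ≤ b) (hc : 0 ≤ c) (hx : 0 ≤ x) (hy : 0 ≤ y) (hz : 0 ≤ z) (hs : 0 < s) :
    (1 + s) ^ 2 / ((1 + a) * (1 + b) * (1 + c)) *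
      (n0 * (1 + a) * (1 - y - z) + n1 * (1 + b) * (1 - x - z) + n2 * (1 + c) * (1 - x - y)) ≤
    n0 * (((1 + s) * (1 - y) / (1 + b)) * ((1 + s) * (1 - z) / (1 + c)))
      + n1 * (((1 + s) * (1 - x) / (1 + a)) * ((1 + s) * (1 - z) / (1 + c)))
      + n2 * (((1 + s) * (1 - x) / (1 + a)) * ((1 + s) * (1 - y) / (1 + b))) := by
  have h1 : n0 * (((1 + s) * (1 - y) / (1 + b)) * ((1 + s) * (1 - z) / (1 + c)))
      + n1 * (((1 + s) * (1 - x) / (1 + a)) * ((1 + s) * (1 - z) / (1 + c)))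
      + n2 * (((1 + s) * (1 - x) / (1 + a)) * ((1 + s) * (1 - y) / (1 + b)))
      = (1 + s) ^ 2 / ((1 + a) * (1 + b) * (1 + c)) *
      (n0 * (1 + a) * ((1 - y) * (1 - z)) + n1 * (1 + b) * ((1 - x) * (1 - z))
        + n2 * (1 + c) * ((1 - x) * (1 - y))) := by
    have a1 : (1 + a) ≠ 0 := by linarith
    have a2 : (1 + b) ≠ 0 := by linarith
    have a3 : (1 + c) ≠ 0 := by linarith
    field_simp
  rw [h1]
  apply mul_le_mul_of_nonneg_left _ (by positivity)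
  have k1 : n0 * (1 + a) * (1 - y - z) ≤ n0 * (1 + a) * ((1 - y) * (1 - z)) :=
    mul_le_mul_of_nonneg_left (by nlinarith [mul_nonneg hy hz]) (by positivity)
  have k2 : n1 * (1 + b) * (1 - x - z) ≤ n1 * (1 + b) * ((1 - x) * (1 - z)) :=
    mul_le_mul_of_nonneg_left (by nlinarith [mul_nonneg hx hz]) (by positivity)
  have k3 : n2 * (1 + c) * (1 - x - y) ≤ n2 * (1 + c) * ((1 - x) * (1 - y)) :=
    mul_le_mul_of_nonneg_left (by nlinarith [mul_nonneg hx hy]) (by positivity)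
  linarith

lemma step (R a b : ℝ) (hR : 0 ≤ R) (ha : 0 ≤ a) (hab : a ≤ b) (h : R * (1 + a) = b + a) :
    R * (2 + b + a) ≤ (b + a) * (2 + b - a) := by
  have h1 : 2 + b + a ≤ (1 + a) * (2 + b - a) := by
    have : 0 ≤ a * (b - a) := mul_nonneg ha (by linarith)
    nlinarith
  calc R * (2 + b + a) ≤ R * ((1 + a) * (2 + b - a)) := mul_le_mul_of_nonneg_left h1 hR
    _ = R * (1 + a) * (2 + b - a) := by ring
    _ = _ := by rw [h]

theorem pf_C_mode3 (h1 : AffInc.C_elem) : AffInc.C_mode3 := by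
  intro n t s hn ht2 ht12 ht01 hs hs0 hs1 hsL
  have hL : 0 < ∑ i, n i := by linarith
  obtain ⟨e0, e1, e2, eA, hA0, -, -⟩ := h1 n hn hL
  set e := eps n with he
  have hs' : s = t 0 + t 1 + t 2 := by rw [hs, Fin.sum_univ_three]
  have ht1 : 0 ≤ t 1 := le_trans ht2 ht12
  have ht0 : 0 ≤ t 0 := le_trans ht1 ht01
  have ht : ∀ i, 0 ≤ t i := by
    intro i; fin_cases i <;> assumption
  obtain ⟨R, hR0, hR1, hR2⟩ : ∃ R : Fin 3 → ℝ, R 0 = (t 1 + t 2) / (1 + t 2) ∧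
      R 1 = (t 0 + t 2) / (1 + t 2) ∧ R 2 = (t 0 + t 1) / (1 + t 1) :=
    ⟨![(t 1 + t 2) / (1 + t 2), (t 0 + t 2) / (1 + t 2), (t 0 + t 1) / (1 + t 1)], rfl, rfl, rfl⟩
  have p1 : (0:ℝ) < 1 + t 1 := by linarith
  have p2 : (0:ℝ) < 1 + t 2 := by linarith
  have q0 : R 0 * (1 + t 2) = t 1 + t 2 := by rw [hR0]; field_simp
  have q1 : R 1 * (1 + t 2) = t 0 + t 2 := by rw [hR1]; field_simp
  have q2 : R 2 * (1 + t 1) = t 0 + t 1 := by rw [hR2]; field_simp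
  have r0 : 0 ≤ R 0 := by rw [hR0]; positivity
  have r1 : 0 ≤ R 1 := by rw [hR1]; positivity
  have r2 : 0 ≤ R 2 := by rw [hR2]; positivity
  have hRn : ∀ i, 0 ≤ R i := by intro i; fin_cases i <;> assumption
  have hRs : ∀ i, R i ≤ s := by
    intro i
    fin_cases i
    · show R 0 ≤ s
      nlinarith [mul_nonneg r0 ht2]
    · show R 1 ≤ s
      nlinarith [mul_nonneg r1 ht2]
    · show R 2 ≤ s
      nlinarith [mul_nonneg r2 ht1]
  have hRt : ∀ i j, i ≠ j → s - t i ≤ R i * (1 + t j) := by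
    intro i j hij
    have a1 : R 0 * (1 + t 2) ≤ R 0 * (1 + t 1) := mul_le_mul_of_nonneg_left (by linarith) r0
    have a2 : R 1 * (1 + t 2) ≤ R 1 * (1 + t 0) := mul_le_mul_of_nonneg_left (by linarith) r1
    have a3 : R 2 * (1 + t 1) ≤ R 2 * (1 + t 0) := mul_le_mul_of_nonneg_left (by linarith) r2
    fin_cases i <;> fin_cases j <;> simp at hij ⊢ <;> linarith
  by_contra hcon
  push Not at hcon
  set V := (1 + s) ^ 2 / (3 * ((1 + t 0) * (1 + t 1) * (1 + t 2)))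
      * (3 + s - AA n * (2 * s + t 0 ^ 2 - t 2 ^ 2)) with hV
  -- for each σ the value is small
  have key : ∀ σ : Equiv.Perm (Fin 3),
      (1 + s) ^ 2 / ((1 + t (σ 0)) * (1 + t (σ 1)) * (1 + t (σ 2))) *
      (n 0 * (1 + t (σ 0)) * (1 - e 1 * R (σ 1) - e 2 * R (σ 2))
        + n 1 * (1 + t (σ 1)) * (1 - e 0 * R (σ 0) - e 2 * R (σ 2))
        + n 2 * (1 + t (σ 2)) * (1 - e 0 * R (σ 0) - e 1 * R (σ 1))) < V * ∑ k, n k := by
    intro σ
    by_contra hc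
    push Not at hc
    apply hcon σ
    refine good n s (fun i => t (σ i)) (fun i => R (σ i)) V hn hL (fun i => ht _) ?_ hs0 hs1 hsL
      (fun i => hRn _) (fun i => hRs _) (fun i j hij => hRt _ _ (fun h => hij (σ.injective h)))
      e e0 e1 e2 ?_
    · rw [hs]; exact (Equiv.sum_comp σ t).symm
    · refine le_trans hc ?_
      exact low (n 0) (n 1) (n 2) s (t (σ 0)) (t (σ 1)) (t (σ 2)) (e 0 * R (σ 0)) (e 1 * R (σ 1))
        (e 2 * R (σ 2)) (hn 0) (hn 1) (hn 2) (ht _) (ht _) (ht _) (mul_nonneg (e0 0) (hRn _))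
        (mul_nonneg (e0 1) (hRn _)) (mul_nonneg (e0 2) (hRn _)) hs0
  have k1 := key 1
  have k2 := key (Equiv.swap 0 1)
  have k3 := key (Equiv.swap 0 2)
  have k4 := key (Equiv.swap 1 2)
  have k5 := key (Equiv.swap 0 1 * Equiv.swap 1 2)
  have k6 := key (Equiv.swap 1 2 * Equiv.swap 0 1)
  have v10 : (Equiv.swap (0 : Fin 3) 1) 0 = 1 := by decide
  have v11 : (Equiv.swap (0 : Fin 3) 1) 1 = 0 := by decide
  have v12 : (Equiv.swap (0 : Fin 3) 1) 2 = 2 := by decide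
  have v20 : (Equiv.swap (0 : Fin 3) 2) 0 = 2 := by decide
  have v21 : (Equiv.swap (0 : Fin 3) 2) 1 = 1 := by decide
  have v22 : (Equiv.swap (0 : Fin 3) 2) 2 = 0 := by decide
  have v30 : (Equiv.swap (1 : Fin 3) 2) 0 = 0 := by decide
  have v31 : (Equiv.swap (1 : Fin 3) 2) 1 = 2 := by decide
  have v32 : (Equiv.swap (1 : Fin 3) 2) 2 = 1 := by decide
  have v40 : (Equiv.swap (0 : Fin 3) 1 * Equiv.swap 1 2 : Equiv.Perm (Fin 3)) 0 = 1 := by decide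
  have v41 : (Equiv.swap (0 : Fin 3) 1 * Equiv.swap 1 2 : Equiv.Perm (Fin 3)) 1 = 2 := by decide
  have v42 : (Equiv.swap (0 : Fin 3) 1 * Equiv.swap 1 2 : Equiv.Perm (Fin 3)) 2 = 0 := by decide
  have v50 : (Equiv.swap (1 : Fin 3) 2 * Equiv.swap 0 1 : Equiv.Perm (Fin 3)) 0 = 2 := by decide
  have v51 : (Equiv.swap (1 : Fin 3) 2 * Equiv.swap 0 1 : Equiv.Perm (Fin 3)) 1 = 0 := by decide
  have v52 : (Equiv.swap (1 : Fin 3) 2 * Equiv.swap 0 1 : Equiv.Perm (Fin 3)) 2 = 1 := by decide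
  simp only [Equiv.Perm.coe_one, id_eq] at k1
  rw [v10, v11, v12] at k2
  rw [v20, v21, v22] at k3
  rw [v30, v31, v32] at k4
  rw [v40, v41, v42] at k5
  rw [v50, v51, v52] at k6
  -- unify the denominators
  have d2 : (1 + t 1) * (1 + t 0) * (1 + t 2) = (1 + t 0) * (1 + t 1) * (1 + t 2) := by ring
  have d3 : (1 + t 2) * (1 + t 1) * (1 + t 0) = (1 + t 0) * (1 + t 1) * (1 + t 2) := by ring
  have d4 : (1 + t 0) * (1 + t 2) * (1 + t 1) = (1 + t 0) * (1 + t 1) * (1 + t 2) := by ring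
  have d5 : (1 + t 1) * (1 + t 2) * (1 + t 0) = (1 + t 0) * (1 + t 1) * (1 + t 2) := by ring
  have d6 : (1 + t 2) * (1 + t 0) * (1 + t 1) = (1 + t 0) * (1 + t 1) * (1 + t 2) := by ring
  rw [d2] at k2
  rw [d3] at k3
  rw [d4] at k4
  rw [d5] at k5
  rw [d6] at k6
  set C := (1 + s) ^ 2 / ((1 + t 0) * (1 + t 1) * (1 + t 2)) with hC
  have hCpos : 0 < C := by positivity
  set L := ∑ k, n k with hLdef
  have hL3 : L = n 0 + n 1 + n 2 := by rw [hLdef, Fin.sum_univ_three]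
  have hVC : V = C / 3 * (3 + s - AA n * (2 * s + t 0 ^ 2 - t 2 ^ 2)) := by
    rw [hV, hC]
    have : (1 + t 0) ≠ 0 := by linarith
    field_simp
  -- the averaged quantity
  have hAL : AA n * L = (L - n 0) * e 0 + (L - n 1) * e 1 + (L - n 2) * e 2 := by
    rw [eA, Fin.sum_univ_three]
    have : L ≠ 0 := hL.ne'
    field_simp
  have hsum : C * (L * (6 + 2 * s) - (R 0 * (2 + t 1 + t 2) + R 1 * (2 + t 0 + t 2)
      + R 2 * (2 + t 0 + t 1)) * (AA n * L)) < 6 * (V * L) := by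
    have : C * (L * (6 + 2 * s) - (R 0 * (2 + t 1 + t 2) + R 1 * (2 + t 0 + t 2)
      + R 2 * (2 + t 0 + t 1)) * (AA n * L)) =
      C * (n 0 * (1 + t 0) * (1 - e 1 * R 1 - e 2 * R 2)
        + n 1 * (1 + t 1) * (1 - e 0 * R 0 - e 2 * R 2)
        + n 2 * (1 + t 2) * (1 - e 0 * R 0 - e 1 * R 1))
      + C * (n 0 * (1 + t 1) * (1 - e 1 * R 0 - e 2 * R 2)
        + n 1 * (1 + t 0) * (1 - e 0 * R 1 - e 2 * R 2)
        + n 2 * (1 + t 2) * (1 - e 0 * R 1 - e 1 * R 0))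
      + C * (n 0 * (1 + t 2) * (1 - e 1 * R 1 - e 2 * R 0)
        + n 1 * (1 + t 1) * (1 - e 0 * R 2 - e 2 * R 0)
        + n 2 * (1 + t 0) * (1 - e 0 * R 2 - e 1 * R 1))
      + C * (n 0 * (1 + t 0) * (1 - e 1 * R 2 - e 2 * R 1)
        + n 1 * (1 + t 2) * (1 - e 0 * R 0 - e 2 * R 1)
        + n 2 * (1 + t 1) * (1 - e 0 * R 0 - e 1 * R 2))
      + C * (n 0 * (1 + t 1) * (1 - e 1 * R 2 - e 2 * R 0)
        + n 1 * (1 + t 2) * (1 - e 0 * R 1 - e 2 * R 0)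
        + n 2 * (1 + t 0) * (1 - e 0 * R 1 - e 1 * R 2))
      + C * (n 0 * (1 + t 2) * (1 - e 1 * R 0 - e 2 * R 1)
        + n 1 * (1 + t 0) * (1 - e 0 * R 2 - e 2 * R 1)
        + n 2 * (1 + t 1) * (1 - e 0 * R 2 - e 1 * R 0)) := by
      rw [hAL, hL3, hs']; ring
    rw [this]
    linarith
  have hRR : R 0 * (2 + t 1 + t 2) + R 1 * (2 + t 0 + t 2) + R 2 * (2 + t 0 + t 1)
      ≤ 4 * s + 2 * t 0 ^ 2 - 2 * t 2 ^ 2 := by
    have a0 : R 0 * (2 + t 1 + t 2) ≤ (t 1 + t 2) * (2 + t 1 - t 2) := by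
      exact step _ _ _ r0 ht2 ht12 q0
    have a1 : R 1 * (2 + t 0 + t 2) ≤ (t 0 + t 2) * (2 + t 0 - t 2) := by
      exact step _ _ _ r1 ht2 (le_trans ht12 ht01) q1
    have a2 : R 2 * (2 + t 0 + t 1) ≤ (t 0 + t 1) * (2 + t 0 - t 1) := by
      exact step _ _ _ r2 ht1 ht01 q2
    have hfin : (t 1 + t 2) * (2 + t 1 - t 2) + (t 0 + t 2) * (2 + t 0 - t 2)
        + (t 0 + t 1) * (2 + t 0 - t 1) = 4 * s + 2 * t 0 ^ 2 - 2 * t 2 ^ 2 := by
      rw [hs']; ring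
    linarith
  have hAL0 : 0 ≤ AA n * L := mul_nonneg hA0 hL.le
  have h7 : (R 0 * (2 + t 1 + t 2) + R 1 * (2 + t 0 + t 2) + R 2 * (2 + t 0 + t 1)) * (AA n * L)
      ≤ (4 * s + 2 * t 0 ^ 2 - 2 * t 2 ^ 2) * (AA n * L) := mul_le_mul_of_nonneg_right hRR hAL0
  have h8 : 6 * (V * L) = C * (L * (6 + 2 * s) - (4 * s + 2 * t 0 ^ 2 - 2 * t 2 ^ 2) * (AA n * L)) := by
    rw [hVC]; ring
  rw [h8] at hsum
  have h9 := lt_of_mul_lt_mul_left hsum hCpos.le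
  linarith

end Helper33AI
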