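import Pool.Agent.Helper72.AI.Stmts

set_option autoImplicit false

namespace Helper33AI

open AffInc
open scoped Pointwise Topology

lemma dir_ne (θ : ℝ) : dir θ ≠ 0 := by
  intro h
  have h1 : Real.cos θ = 0 := congrArg Prod.fst h
  have h2 : Real.sin θ = 0 := congrArg Prod.snd h
  have := Real.sin_sq_add_cos_sq θ
  rw [h1, h2] at this
  norm_num at this

lemma dir_cont : Continuous dir := by
  unfold dir; fun_prop

lemma dir_pi (θ : ℝ) : dir (θ + Real.pi) = - dir θ := by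
  unfold dir
  rw [Real.cos_add_pi, Real.sin_add_pi]
  rfl

theorem pf_S_maxchord : AffInc.S_maxchord := by
  intro G hG
  set D : Set (ℝ × ℝ) := G - G with hD
  have hDc : IsCompact D := by
    have h := hG.cpt.add hG.cpt.neg
    rwa [← sub_eq_add_neg] at h
  have hDconv : Convex ℝ D := hG.cvx.sub hG.cvx
  have hD0 : D ∈ 𝓝 (0 : ℝ × ℝ) := by
    obtain ⟨c, hc⟩ := hG.int
    have h1 : interior G - {c} ⊆ D := Set.sub_subset_sub interior_subset
      (Set.singleton_subset_iff.2 (interior_subset hc))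
    have h2 : IsOpen (interior G - {c}) := isOpen_interior.sub_right
    refine Filter.mem_of_superset (h2.mem_nhds ?_) h1
    exact ⟨c, hc, c, rfl, sub_self c⟩
  have hsymm : ∀ x ∈ D, -x ∈ D := by
    rintro _ ⟨a, ha, b, hb, rfl⟩
    exact ⟨b, hb, a, ha, by simp⟩
  have hbd : Bornology.IsVonNBounded ℝ D :=
    NormedSpace.isVonNBounded_of_isBounded ℝ hDc.isBounded
  have habs : Absorbent ℝ D := absorbent_nhds_zero hD0
  have hpos : ∀ θ, 0 < gauge D (dir θ) := fun θ => (gauge_pos habs hbd).2 (dir_ne θ)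
  have hmem : ∀ x, gauge D x ≤ 1 ↔ x ∈ D := by
    intro x
    rw [gauge_le_one_iff_mem_closure hDconv hD0, hDc.isClosed.closure_eq]
  refine ⟨fun θ => (gauge D (dir θ))⁻¹, ?_, ?_, ?_, ?_, ?_⟩
  · exact ((continuous_gauge hDconv hD0).comp dir_cont).inv₀ (fun θ => (hpos θ).ne')
  · intro θ
    exact inv_pos.2 (hpos θ)
  · intro θ
    show (gauge D (dir (θ + Real.pi)))⁻¹ = (gauge D (dir θ))⁻¹
    rw [dir_pi, gauge_neg hsymm]
  · intro θ
    have h1 : (gauge D (dir θ))⁻¹ • dir θ ∈ D := by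
      rw [← hmem, gauge_smul_of_nonneg (inv_nonneg.2 (hpos θ).le), smul_eq_mul,
        inv_mul_cancel₀ (hpos θ).ne']
    obtain ⟨a, ha, b, hb, hab⟩ := h1
    refine ⟨b, hb, ?_⟩
    have : b + (gauge D (dir θ))⁻¹ • dir θ = a := by rw [← hab]; simp
    show b + (gauge D (dir θ))⁻¹ • dir θ ∈ G
    rw [this]; exact ha
  · intro θ ℓ X hX hX'
    show ℓ ≤ (gauge D (dir θ))⁻¹
    rcases le_or_gt ℓ 0 with h | h
    · exact h.trans (inv_pos.2 (hpos θ)).le
    · have h1 : ℓ • dir θ ∈ D := ⟨_, hX', X, hX, by simp⟩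
      rw [← hmem, gauge_smul_of_nonneg h.le, smul_eq_mul] at h1
      rw [← one_div, le_div_iff₀ (hpos θ)]
      exact h1

end Helper33AI
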